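import Pool.Agent.Lib.TGA_h75.E4
import Pool.Agent.Lib.TGA_h98.E5
import Pool.Agent.Lib.TGA_h34.E6
import Pool.Agent.Lib.TG.WLz

/-!
# TANK G, block END: limit frames at all valuations give log resolution
-/

set_option autoImplicit false

namespace Pool.Agent.TG

universe u

/-- **The END block**: limit frames at all zero-dimensional valuations give log resolution of the
function field. -/
theorem wlz_of_glim {k : Type u} [Field k] [IsAlgClosed k] {n : ℕ} (h : GLim k n) : WLz k n := by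
  intro K _ _ hK hn Z hZ
  obtain ⟨P, N, S, e, hP, hF, hS, he, hZS, hA⟩ := rowE4 h K hK hn Z hZ
  obtain ⟨P', N', Q', a', hP', hF', hQ', hj, hA'⟩ := rowE5 hP hF
    (fun j => ⟨Submodule.fg_span (Set.finite_singleton _), fun h0 => hS j
      ((Submodule.span_singleton_eq_bot).1 h0)⟩) he hA
  obtain ⟨P'', hP'', hlog⟩ := rowE6 hK hn hP' hF' hQ' hA'
  refine ⟨P'', hP'', fun V hV => ?_⟩
  obtain ⟨t, ht, hm⟩ := hlog V hV
  refine ⟨t, ht, fun z hz => hm z ?_⟩
  obtain ⟨j, rfl⟩ := hZS z hz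
  obtain ⟨j', h1, h2⟩ := hj j
  exact ⟨j', h1, h2⟩

theorem wl_of_glim {k : Type u} [Field k] [IsAlgClosed k] {n : ℕ} (h : GLim k n) : WL k n :=
  WL_of_WLz (wlz_of_glim h)

end Pool.Agent.TG
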