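import Pool.Agent.Lib.TGA_h75.Atlas

/-!
# TANK G: limit frames at a valuation ring of the function field (interface LOC => END)
-/

set_option autoImplicit false

namespace Pool.Agent.TG

open Pool.Agent.LU2 (locV)

universe u

section

variable {k K : Type u} [Field k] [Field K] [Algebra k K]

/-- The limit ring at `V` of the model `P` along the Laurent monomials in `S`. -/
def LR (V : ValuationSubring K) (P : Submodule k K) {ι : Type} [Fintype ι] (S : ι → K) :
    Subalgebra k K :=
  locV V (ncl (Algebra.adjoin k ((RV V P : Set K) ∪ {z | z ∈ V ∧ ∃ a : ι → ℤ, z = mon S a})))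

/-- `f` is a unit of the ring `R` dominated by `V`. -/
def UnR (V : ValuationSubring K) (R : Subalgebra k K) (f : K) : Prop :=
  f ∈ R ∧ V.valuation f = 1

/-- Limit frame, frame form: generators of the maximal ideal and finite generation over the
monomials. -/
structure LF (n : ℕ) (V : ValuationSubring K) (R : Subalgebra k K) {ι : Type} [Fintype ι]
    (S : ι → K) (Z : Set K) where
  /-- The rank. -/
  r : ℕ
  /-- The number of transversal parameters. -/
  D : ℕ
  dim : r + D = n
  /-- The monomials. -/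
  x : Fin r → K
  x_ne : ∀ i, x i ≠ 0
  /-- The values of the `x i` are independent. -/
  val : ∀ a : Fin r → ℤ, V.valuation (mon x a) = 1 → a = 0
  /-- The transversal parameters. -/
  y : Fin D → K
  y_mem : ∀ i, y i ∈ R
  y_pos : ∀ i, V.valuation (y i) < 1
  mon_mem : ∀ a : Fin r → ℤ, mon x a ∈ V → mon x a ∈ R
  fgen : ∃ F : Finset K,
    R = locV V (Algebra.adjoin k ((tor k x y {a | mon x a ∈ V} : Set K) ∪ F))
  gen : ∀ f ∈ R, V.valuation f < 1 → ∃ (a : Fin r → ℤ) (g : K) (b : Fin D → K),
    (V.valuation (mon x a) < 1 ∨ g = 0) ∧ g ∈ R ∧ (∀ i, b i ∈ R) ∧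
      f = mon x a * g + ∑ i, y i * b i
  S_mono : ∀ j, ∃ a : Fin r → ℤ, UnR V R (S j / mon x a)
  Z_mono : ∀ z ∈ Z, ∃ a : Fin r → ℤ, UnR V R (z / mon x a)
  /-- The index. -/
  e : ℕ
  e_pos : 0 < e
  tors : ∀ a : Fin r → ℤ, ∃ b : ι → ℤ, UnR V R (mon x (e • a) / mon S b)

/-- Limit frame, étale form: `R = k[x^a (value ≥ 0), y][θ]` localised, `θ` a simple root. -/
structure LE (n : ℕ) (V : ValuationSubring K) (R : Subalgebra k K) {ι : Type} [Fintype ι]
    (S : ι → K) (Z : Set K) extends LF n V R S Z where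
  /-- The étale generator. -/
  θ : K
  /-- Its equation. -/
  Φ : Polynomial K
  monic : Φ.Monic
  coeff : ∀ i, Φ.coeff i ∈ tor k x y {a | mon x a ∈ V}
  root : Φ.eval θ = 0
  der : V.valuation (Φ.derivative.eval θ) = 1
  ring : R = locV V (Algebra.adjoin k ((tor k x y {a | mon x a ∈ V} : Set K) ∪ {θ}))

/-- The limit statement in dimension `n`: one model `P` and one finite family `S` of functions
such that there are limit frames at all zero-dimensional `V`. -/
def GLim (k : Type u) [Field k] (n : ℕ) : Prop :=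
  ∀ (K : Type u) [Field K] [Algebra k K], (⊤ : IntermediateField k K).FG →
    Algebra.trdeg k K = n → ∀ Z : Finset K, (∀ z ∈ Z, z ≠ 0) →
      ∃ (P : Submodule k K) (N : ℕ) (S : Fin N → K), IsModel P ∧ Fin' P ∧ (∀ j, S j ≠ 0) ∧
        ∀ V : ValuationSubring K, ZDim k V → Nonempty (LF n V (LR V P S) S (Z : Set K))

end

end Pool.Agent.TG
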