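import Pool.Agent.Lib.TG.Basic

/-!
# TANK G: finite toric atlas of a model (interface of the END block)

A chart: `NV V P` is étale over the toric ring `k[x^m (m ∈ T), y]` for all zero-dimensional `V` in
a basic open set; the classes `Q j` (finite dimensional spaces of degree `a j`) are principal,
generated by a monomial times `f ^ a j`.
-/

set_option autoImplicit false

namespace Pool.Agent.TG

open Pool.Agent.LU2 (locV)

universe u

section Mon

variable {K : Type u} [Field K] {ι : Type} [Fintype ι]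

/-- The Laurent monomial `x ^ a`. -/
def mon (x : ι → K) (a : ι → ℤ) : K := ∏ i, x i ^ a i

variable {x : ι → K}

theorem mon_ne_zero (hx : ∀ i, x i ≠ 0) (a : ι → ℤ) : mon x a ≠ 0 :=
  Finset.prod_ne_zero_iff.2 fun i _ => zpow_ne_zero _ (hx i)

theorem mon_zero : mon x 0 = 1 := by simp [mon]

theorem mon_add (hx : ∀ i, x i ≠ 0) (a b : ι → ℤ) : mon x (a + b) = mon x a * mon x b := by
  simp only [mon, Pi.add_apply, ← Finset.prod_mul_distrib]
  exact Finset.prod_congr rfl fun i _ => zpow_add₀ (hx i) _ _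

theorem mon_neg (a : ι → ℤ) : mon x (-a) = (mon x a)⁻¹ := by
  simp only [mon, Pi.neg_apply, ← Finset.prod_inv_distrib]
  exact Finset.prod_congr rfl fun i _ => zpow_neg _ _

theorem mon_sub (hx : ∀ i, x i ≠ 0) (a b : ι → ℤ) : mon x (a - b) = mon x a / mon x b := by
  rw [sub_eq_add_neg, mon_add hx, mon_neg, div_eq_mul_inv]

theorem mon_nsmul (N : ℕ) (a : ι → ℤ) : mon x (N • a) = mon x a ^ N := by
  simp only [mon, Pi.smul_apply, ← Finset.prod_pow]
  refine Finset.prod_congr rfl fun i _ => ?_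
  rw [nsmul_eq_mul, mul_comm, zpow_mul, zpow_natCast]

theorem mon_zsmul (N : ℤ) (a : ι → ℤ) : mon x (N • a) = mon x a ^ N := by
  simp only [mon, Pi.smul_apply, ← Finset.prod_zpow]
  refine Finset.prod_congr rfl fun i _ => ?_
  rw [smul_eq_mul, mul_comm, zpow_mul]

theorem mon_single [DecidableEq ι] (i : ι) : mon x (Pi.single i 1) = x i := by
  rw [mon, Finset.prod_eq_single i]
  · simp
  · intro j _ hj
    simp [hj]
  · simp

theorem mon_sum (hx : ∀ i, x i ≠ 0) {κ : Type*} (s : Finset κ) (a : κ → ι → ℤ) :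
    mon x (∑ j ∈ s, a j) = ∏ j ∈ s, mon x (a j) := by
  classical
  induction s using Finset.induction_on with
  | empty => simp [mon_zero]
  | insert j s hj ih => rw [Finset.sum_insert hj, Finset.prod_insert hj, mon_add hx, ih]

end Mon

section Atlas

variable {k K : Type u} [Field k] [Field K] [Algebra k K]

/-- The toric ring `k[x ^ m (m ∈ T), y]`. -/
def tor (k : Type u) {K : Type u} [Field k] [Field K] [Algebra k K] {r D : ℕ} (x : Fin r → K)
    (y : Fin D → K) (T : Set (Fin r → ℤ)) : Subalgebra k K :=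
  Algebra.adjoin k (mon x '' T ∪ Set.range y)

/-- A chart of a toric atlas of the model `P` with classes `Q j` of degrees `a j`, and index
dividing (a power of) `e`. -/
structure TChart (n : ℕ) (P : Submodule k K) {ι : Type} [Fintype ι] [DecidableEq ι]
    (Q : ι → Submodule k K) (a : ι → ℕ) (e : ℕ) where
  /-- The open set: all zero-dimensional `V` containing `F`. -/
  F : Finset K
  /-- The minimal element of `P`. -/
  f : K
  /-- The rank. -/
  r : ℕ
  /-- The number of transversal parameters. -/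
  D : ℕ
  dim : r + D = n
  /-- The monomials. -/
  x : Fin r → K
  x_ne : ∀ i, x i ≠ 0
  /-- The other parameters. -/
  y : Fin D → K
  ind : AlgebraicIndependent k (Sum.elim x y)
  /-- The saturated monoid. -/
  T : AddSubmonoid (Fin r → ℤ)
  T_fg : T.FG
  T_sat : ∀ (N : ℕ) (m : Fin r → ℤ), 0 < N → N • m ∈ T → m ∈ T
  /-- The classes. -/
  φ : (ι → ℤ) →+ (Fin r → ℤ)
  tors : ∀ m : Fin r → ℤ, ∃ b : ι → ℤ, φ b = e • m
  /-- The étale generator. -/
  θ : K
  /-- Its equation. -/
  Φ : Polynomial K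
  monic : Φ.Monic
  coeff : ∀ i, Φ.coeff i ∈ tor k x y T
  root : Φ.eval θ = 0
  min : ∀ V : ValuationSubring K, ZDim k V → (∀ z ∈ F, z ∈ V) → IsMin V P f
  ring : ∀ V : ValuationSubring K, ZDim k V → (∀ z ∈ F, z ∈ V) →
    NV V P = locV V (Algebra.adjoin k ((tor k x y T : Set K) ∪ {θ}))
  der : ∀ V : ValuationSubring K, ZDim k V → (∀ z ∈ F, z ∈ V) →
    V.valuation (Φ.derivative.eval θ) = 1
  cls : ∀ V : ValuationSubring K, ZDim k V → (∀ z ∈ F, z ∈ V) → ∀ j,
    (∀ q ∈ Q j, q / (mon x (φ (Pi.single j 1)) * f ^ a j) ∈ NV V P) ∧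
      ∃ q ∈ Q j, V.valuation (q / (mon x (φ (Pi.single j 1)) * f ^ a j)) = 1

/-- `P` has a finite toric atlas with the classes `Q`, index `e`. -/
def HasAtlas (n : ℕ) (P : Submodule k K) {ι : Type} [Fintype ι] [DecidableEq ι]
    (Q : ι → Submodule k K) (a : ι → ℕ) (e : ℕ) : Prop :=
  ∃ (m : ℕ) (C : Fin m → TChart n P Q a e), ∀ V : ValuationSubring K, ZDim k V →
    ∃ i, ∀ z ∈ (C i).F, z ∈ V

end Atlas

end Pool.Agent.TG
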