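import Pool.Agent.Lib.TGA_h75.Core

/-!
# TANK G, E4: the charts of the finite level models near `V`
-/

set_option autoImplicit false

namespace Pool.Agent.TG

open Pool.Agent.LU2 (locV le_locV locV_mono locV_le locV_inv locV_locV)
open Pool.Agent.TGh53 (frac Nrm adj le_adj mem_adj adj_le)

universe u

variable {k K : Type u} [Field k] [Field K] [Algebra k K] {V : ValuationSubring K}
  {P : Submodule k K} {ι : Type} [Fintype ι] [DecidableEq ι] {S : ι → K} {n : ℕ} {Z : Set K}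
  {R : Subalgebra k K}

theorem ncl_adj_le {A : Subalgebra k K} {θ : K} {Φ : Polynomial K} (hΦ : Φ.Monic)
    (hc : ∀ i, Φ.coeff i ∈ A) (h0 : Φ.eval θ = 0) : ncl (adj A θ) ≤ ncl A := by
  have h1 : adj A θ ≤ ncl A := adj_le (le_ncl A)
    (mem_ncl_of_root Φ hΦ (fun i => le_ncl A (hc i)) h0)
  exact (ncl_mono h1).trans (ncl_ncl A).le

omit [DecidableEq ι] in
/-- The fraction field of `k[x^T, y][θ]`. -/
theorem frac_adj_top (hV : ZDim k V) (hP : IsModel P) (hF : Fin' P) (L : LE n V R S Z)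
    (hLR : ∀ w, w ∈ R ↔ w ∈ LR V P S) {T : Set (Fin L.r → ℤ)}
    (hT : ∀ i, Pi.single i (1 : ℤ) ∈ T ∨ - Pi.single i (1 : ℤ) ∈ T) (z : K) :
    z ∈ frac (adj (tor k L.x L.y T) L.θ) := by
  set A := adj (tor k L.x L.y T) L.θ with hA
  have h1 : adj (tor k L.x L.y {a | mon L.x a ∈ V}) L.θ ≤ (fracE A).toSubalgebra := by
    refine adj_le (tor_le (fun m _ => ?_) fun i => ?_) (le_fracE A (mem_adj _ _))
    · exact mon_mem_frac (T := T) (fun m hm => le_adj _ _ (mon_mem_tor hm)) hT m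
    · exact le_fracE A (le_adj _ _ (y_mem_tor i))
  have h2 : LR V P S ≤ (fracE A).toSubalgebra := fun w hw => by
    have h3 : w ∈ locV V (adj (tor k L.x L.y {a | mon L.x a ∈ V}) L.θ) :=
      (SetLike.ext_iff.1 L.ring w).1 ((hLR w).2 hw)
    exact frac_le h1 (locV_le_frac h3)
  exact frac_le h2 (LR_frac hV.ov hP hF z)

open scoped Pointwise in
/-- The charts near `V`. -/
theorem exists_charts
    (hG : ∀ {r : ℕ} (T : AddSubmonoid (Fin r → ℤ)), T.FG → ∃ T' : AddSubmonoid (Fin r → ℤ),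
      T'.FG ∧ ∀ m, m ∈ T' ↔ ∃ N : ℕ, 0 < N ∧ N • m ∈ T)
    (hN : ∀ {r D : ℕ} {x : Fin r → K} {y : Fin D → K}, AlgebraicIndependent k (Sum.elim x y) →
      ∀ T : AddSubmonoid (Fin r → ℤ), T.FG →
        (∀ (N : ℕ) (m : Fin r → ℤ), 0 < N → N • m ∈ T → m ∈ T) →
          Nrm (tor k x y (T : Set (Fin r → ℤ))))
    (hV : ZDim k V) (hP : IsModel P) (hF : Fin' P) (hS : ∀ j, S j ≠ 0)
    (L : LE n V R S Z) (hLR : ∀ w, w ∈ R ↔ w ∈ LR V P S)
    (ind : AlgebraicIndependent k (Sum.elim L.x L.y)) :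
    ∃ (A : Finset (ι → ℤ)) (Fs : Finset K), A.Nonempty ∧ (∀ z ∈ Fs, z ∈ V) ∧
      ∀ (B : Finset (ι → ℤ)) (b₂ : ι → ℤ), b₂ ∈ B →
        ∃ C : TChart n (PA P S (A + B)) (fun j => Submodule.span k {S j}) (fun _ => 0) L.e,
          ∀ z ∈ C.F, z ∈ Fs ∨ ∃ b ∈ B, z = mon S (b - b₂) := by
  classical
  obtain ⟨E⟩ := L.toLF.exists_exps (fun f hf h1 => (hLR _).2 (locV_inv ((hLR _).1 hf) h1))
  obtain ⟨A, Fs, f, hFs, hΦ, hpm, hW⟩ := core_data hV hP hS L hLR E
  have hA0 : (0 : ι → ℤ) ∈ A := (hW V hV.ov hFs).2.1.1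
  refine ⟨A, Fs, ⟨0, hA0⟩, hFs, fun B b₂ hb₂ => ?_⟩
  -- the monoid
  set Cn : AddSubmonoid (ι → ℤ) :=
    AddSubmonoid.closure ((fun a => a - b₂) '' ((A + B : Finset (ι → ℤ)) : Set (ι → ℤ))) with hCn
  have hCnfg : Cn.FG := ⟨(A + B).image fun a => a - b₂, by rw [Finset.coe_image]⟩
  obtain ⟨T, hTfg, hT⟩ := hG (Cn.map E.φ) (hCnfg.map _)
  have hsat : ∀ (N : ℕ) (m : Fin L.r → ℤ), 0 < N → N • m ∈ T → m ∈ T := by
    intro N m hN0 hm
    obtain ⟨N', hN', h⟩ := (hT _).1 hm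
    exact (hT _).2 ⟨N' * N, Nat.mul_pos hN' hN0, by rw [mul_smul]; exact h⟩
  have hCn_mem : ∀ a ∈ A + B, a - b₂ ∈ Cn := fun a ha =>
    AddSubmonoid.subset_closure ⟨a, Finset.mem_coe.2 ha, rfl⟩
  have hA_mem : ∀ a ∈ A, a ∈ Cn := fun a ha => by
    have := hCn_mem (a + b₂) (Finset.add_mem_add ha hb₂)
    rwa [add_sub_cancel_right] at this
  have hT1 : ∀ a ∈ Cn, E.φ a ∈ T := fun a ha =>
    (hT _).2 ⟨1, one_pos, by rw [one_smul]; exact ⟨a, ha, rfl⟩⟩
  have hT2 : {m | ∃ a ∈ A, L.e • m = E.φ a} ⊆ (T : Set (Fin L.r → ℤ)) := by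
    rintro m ⟨a, ha, h⟩
    refine hsat L.e m L.e_pos ?_
    rw [h]
    exact hT1 a (hA_mem a ha)
  have hpm' : ∀ i, Pi.single i (1 : ℤ) ∈ (T : Set (Fin L.r → ℤ)) ∨
      - Pi.single i (1 : ℤ) ∈ (T : Set (Fin L.r → ℤ)) := fun i =>
    (hpm i).imp (fun h => hT2 h) (fun h => hT2 h)
  set O := adj (tor k L.x L.y (T : Set (Fin L.r → ℤ))) L.θ with hO
  have hΦ' : ∀ i, L.Φ.coeff i ∈ tor k L.x L.y (T : Set (Fin L.r → ℤ)) := fun i =>
    tor_mono hT2 (hΦ i)
  set Fc : Finset K := Fs ∪ B.image fun b => mon S (b - b₂) with hFc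
  -- the situation at `W`
  have key : ∀ W : ValuationSubring K, ZDim k W → (∀ z ∈ Fc, z ∈ W) →
      IsMin W (PA P S (A + B)) (f * mon S b₂) ∧ NV W (PA P S (A + B)) = locV W O ∧
        W.valuation (L.Φ.derivative.eval L.θ) = 1 ∧ ∀ j, E.u j ∈ NV W (PA P S (A + B)) := by
    intro W hZ hFW
    have hFW1 : ∀ z ∈ Fs, z ∈ W := fun z hz => hFW z (Finset.mem_union_left _ hz)
    obtain ⟨hfW, hAW, hyW, hθW, huW, huW', hTW⟩ := hW W hZ.ov hFW1
    have hBW : MinA W S B b₂ := ⟨hb₂, fun b hb => hFW _ (Finset.mem_union_right _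
      (Finset.mem_image_of_mem _ hb))⟩
    have hABW : MinA W S (A + B) b₂ := by
      have := hAW.add hS hBW
      rwa [zero_add] at this
    have hmono : NV W (PA P S A) ≤ NV W (PA P S (A + B)) := NV_PA_mono hZ.ov hP hS hAW hBW
    have hPAm : IsModel (PA P S (A + B)) := PA_isModel hP hS ⟨b₂, hABW.1⟩
    -- `O ≤ NV`
    have hCnNV : ∀ a ∈ Cn, mon S a ∈ NV W (PA P S (A + B)) := by
      intro a ha
      induction ha using AddSubmonoid.closure_induction with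
      | mem x hx =>
        obtain ⟨a, ha, rfl⟩ := hx
        exact mon_mem_PA hZ.ov hP hS hABW (Finset.mem_coe.1 ha)
      | zero => rw [mon_zero]; exact Subalgebra.one_mem _
      | add x y _ _ hx hy => rw [mon_add hS]; exact Subalgebra.mul_mem _ hx hy
    have hmonu : ∀ a, mon E.u a ∈ NV W (PA P S (A + B)) := fun a =>
      mon_mem_of (fun j => hmono (huW j)) (fun j => hmono (huW' j)) a
    have hTNV : ∀ m ∈ T, mon L.x m ∈ NV W (PA P S (A + B)) := by
      intro m hm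
      obtain ⟨N', hN', a, ha, h⟩ := (hT m).1 hm
      have h1 : mon L.x m ^ N' = mon S a * mon E.u (-a) := by
        rw [← mon_nsmul, ← h, E.eq, mul_assoc, ← mon_add E.u_ne, add_neg_cancel, mon_zero,
          mul_one]
      have h2 : mon L.x m ^ N' ∈ NV W (PA P S (A + B)) := by
        rw [h1]
        exact Subalgebra.mul_mem _ (hCnNV a ha) (hmonu _)
      refine ncl_NV_le ?_
      exact IsIntegral.of_pow hN' (isIntegral_algebraMap (R := NV W (PA P S (A + B)))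
        (x := ⟨_, h2⟩))
    have hle1 : O ≤ NV W (PA P S (A + B)) :=
      adj_le (tor_le hTNV fun i => hmono (hyW i)) (hmono hθW)
    have hOW : ∀ z ∈ O, z ∈ W := fun z hz => NV_le hZ.ov hPAm z (hle1 hz)
    obtain ⟨hδ, hRVO, huO, huO'⟩ := hTW T hT2 hOW
    have hfr : ∀ z : K, z ∈ frac O := frac_adj_top hV hP hF L hLR hpm'
    have hncl : locV W (ncl (tor k L.x L.y (T : Set (Fin L.r → ℤ)))) = locV W O :=
      Pool.Agent.TGh53.etale_ncl (fun a ha => hOW a (le_adj _ _ ha)) (hN ind T hTfg hsat) L.monic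
        hΦ' L.root hδ hfr
    refine ⟨PA_isMin hZ.ov hS hABW hfW, le_antisymm ?_ ?_, hδ, fun j => hmono (huW j)⟩
    · refine NV_PA_le hZ.ov hP hS hABW ?_ hRVO fun a ha => ?_
      · rw [locV_ncl_locV, ← hncl]
        exact locV_mono (ncl_adj_le L.monic hΦ' L.root)
      · rw [E.eq]
        refine Subalgebra.mul_mem _ (le_locV _ (le_adj _ _ (mon_mem_tor ?_)))
          (mon_mem_of huO huO' _)
        exact hT1 _ (hCn_mem a ha)
    · refine locV_le hle1 fun a ha h1 => NV_inv ha h1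
  refine ⟨{
    F := Fc
    f := f * mon S b₂
    r := L.r
    D := L.D
    dim := L.dim
    x := L.x
    x_ne := L.x_ne
    y := L.y
    ind := ind
    T := T
    T_fg := hTfg
    T_sat := hsat
    φ := E.φ
    tors := E.tors
    θ := L.θ
    Φ := L.Φ
    monic := L.monic
    coeff := hΦ'
    root := L.root
    min := fun W hZ hFW => (key W hZ hFW).1
    ring := fun W hZ hFW => (key W hZ hFW).2.1
    der := fun W hZ hFW => (key W hZ hFW).2.2.1
    cls := fun W hZ hFW j => ?_ }, fun z hz => ?_⟩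
  · have hu : S j / (mon L.x (E.φ (Pi.single j 1)) * (f * mon S b₂) ^ 0) = E.u j := by
      have h1 := E.eq (Pi.single j 1)
      rw [mon_single, mon_single] at h1
      rw [pow_zero, mul_one, h1, mul_div_cancel_left₀ _ (mon_ne_zero L.x_ne _)]
    constructor
    · intro q hq
      obtain ⟨c, rfl⟩ := Submodule.mem_span_singleton.1 hq
      rw [smul_div_assoc, hu]
      exact Subalgebra.smul_mem _ ((key W hZ hFW).2.2.2 j) c
    · refine ⟨S j, Submodule.mem_span_singleton_self _, ?_⟩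
      rw [hu]
      have h3 : (E.u j)⁻¹ ∈ W := by
        obtain ⟨-, hAW, -, -, -, huW', -⟩ := hW W hZ.ov
          (fun z hz => hFW z (Finset.mem_union_left _ hz))
        exact NV_le hZ.ov (PA_isModel hP hS ⟨0, hAW.1⟩) _ (huW' j)
      have h4 : E.u j ∈ W := NV_le hZ.ov (PA_isModel hP hS
        ⟨_, Finset.add_mem_add hA0 hb₂⟩) _ ((key W hZ hFW).2.2.2 j)
      exact val_eq_one_of_mem_inv (E.u_ne j) h4 h3
  · rcases Finset.mem_union.1 hz with hz | hz
    · exact Or.inl hz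
    · obtain ⟨b, hb, rfl⟩ := Finset.mem_image.1 hz
      exact Or.inr ⟨b, hb, rfl⟩

end Pool.Agent.TG
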