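import Pool.Agent.Lib.TGA_h75.Frac

/-!
# TANK G, E4: finite data of a limit frame, valid near `V`
-/

set_option autoImplicit false

namespace Pool.Agent.TG

open Pool.Agent.LU2 (locV le_locV locV_mono locV_le locV_inv locV_locV)
open Pool.Agent.TGh53 (frac Nrm adj le_adj mem_adj adj_le)

universe u

variable {k K : Type u} [Field k] [Field K] [Algebra k K] {V : ValuationSubring K}
  {P : Submodule k K} {ι : Type} [Fintype ι] [DecidableEq ι] {S : ι → K} {n : ℕ} {Z : Set K}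
  {R : Subalgebra k K}

/-- The exponents of the `S j`. -/
structure Exps (L : LF n V R S Z) where
  /-- the exponents -/
  φ : (ι → ℤ) →+ (Fin L.r → ℤ)
  /-- the units -/
  u : ι → K
  u_ne : ∀ j, u j ≠ 0
  u_mem : ∀ j, u j ∈ R
  u_inv : ∀ j, (u j)⁻¹ ∈ R
  u_val : ∀ j, V.valuation (u j) = 1
  eq : ∀ a, mon S a = mon L.x (φ a) * mon u a

omit [DecidableEq ι] in
theorem LF.exists_exps (L : LF n V R S Z) (hR : ∀ f ∈ R, V.valuation f = 1 → f⁻¹ ∈ R) :
    Nonempty (Exps L) := by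
  choose c hc using L.S_mono
  refine ⟨⟨(Fintype.linearCombination ℤ c).toAddMonoidHom, fun j => S j / mon L.x (c j),
    fun j => ne_zero_of_val_eq_one (hc j).2, fun j => (hc j).1,
    fun j => hR _ (hc j).1 (hc j).2, fun j => (hc j).2, fun a => ?_⟩⟩
  have h1 : (Fintype.linearCombination ℤ c).toAddMonoidHom a = ∑ j, a j • c j := by
    rw [LinearMap.toAddMonoidHom_coe, Fintype.linearCombination_apply]
  rw [h1, mon_sum L.x_ne, mon, mon, ← Finset.prod_mul_distrib]
  refine Finset.prod_congr rfl fun j _ => ?_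
  rw [mon_zsmul, ← mul_zpow, mul_div_cancel₀]
  exact mon_ne_zero L.x_ne _

omit [DecidableEq ι] in
theorem val_mon_eq_one {u : ι → K} (h : ∀ j, V.valuation (u j) = 1) (a : ι → ℤ) :
    V.valuation (mon u a) = 1 := by
  rw [mon, map_prod]
  refine Finset.prod_eq_one fun j _ => ?_
  rw [map_zpow₀, h, one_zpow]

omit [DecidableEq ι] in
theorem mon_mem_of {A : Subalgebra k K} {u : ι → K} (h : ∀ j, u j ∈ A) (h' : ∀ j, (u j)⁻¹ ∈ A)
    (a : ι → ℤ) : mon u a ∈ A := by
  refine Subalgebra.prod_mem _ fun j _ => ?_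
  rcases le_total 0 (a j) with h0 | h0
  · obtain ⟨m, hm⟩ := Int.eq_ofNat_of_zero_le h0
    rw [hm]
    have : u j ^ (m : ℤ) = u j ^ m := zpow_natCast _ _
    rw [this]
    exact Subalgebra.pow_mem _ (h j) _
  · obtain ⟨m, hm⟩ := Int.eq_ofNat_of_zero_le (neg_nonneg.2 h0)
    have : u j ^ (a j) = (u j)⁻¹ ^ m := by
      rw [inv_pow, ← zpow_natCast, ← zpow_neg]
      congr 1
      omega
    rw [this]
    exact Subalgebra.pow_mem _ (h' j) _

omit [DecidableEq ι] in
theorem Exps.val {L : LF n V R S Z} (E : Exps L) (a : ι → ℤ) :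
    V.valuation (mon S a) = V.valuation (mon L.x (E.φ a)) := by
  rw [E.eq, map_mul, val_mon_eq_one E.u_val, mul_one]

theorem Exps.tors {L : LF n V R S Z} (E : Exps L) (m : Fin L.r → ℤ) :
    ∃ b : ι → ℤ, E.φ b = L.e • m := by
  obtain ⟨b, -, hb⟩ := L.tors m
  refine ⟨b, ?_⟩
  rw [map_div₀, E.val, ← map_div₀, ← mon_sub L.x_ne] at hb
  exact (sub_eq_zero.1 (L.val _ hb)).symm

theorem val_eq_one_of_inv {x : K} (h0 : x ≠ 0) (h1 : x ∈ V) (h2 : x⁻¹ ∈ V) :
    V.valuation x = 1 := val_eq_one_of_mem_inv h0 h1 h2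

/-- The finite data of a limit frame. -/
theorem core_data (hV : ZDim k V) (hP : IsModel P) (hS : ∀ j, S j ≠ 0)
    (L : LE n V R S Z) (hLR : ∀ w, w ∈ R ↔ w ∈ LR V P S) (E : Exps L.toLF) :
    ∃ (A : Finset (ι → ℤ)) (Fs : Finset K) (f : K), (∀ z ∈ Fs, z ∈ V) ∧
      (∀ i, L.Φ.coeff i ∈ tor k L.x L.y {m | ∃ a ∈ A, L.e • m = E.φ a}) ∧
      (∀ i, (∃ a ∈ A, L.e • (Pi.single i (1 : ℤ)) = E.φ a) ∨
        ∃ a ∈ A, L.e • (- Pi.single i (1 : ℤ)) = E.φ a) ∧
      ∀ W : ValuationSubring K, Ov k W → (∀ z ∈ Fs, z ∈ W) →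
        IsMin W P f ∧ MinA W S A 0 ∧
        (∀ i, L.y i ∈ NV W (PA P S A)) ∧ L.θ ∈ NV W (PA P S A) ∧
        (∀ j, E.u j ∈ NV W (PA P S A)) ∧ (∀ j, (E.u j)⁻¹ ∈ NV W (PA P S A)) ∧
        ∀ T : Set (Fin L.r → ℤ), {m | ∃ a ∈ A, L.e • m = E.φ a} ⊆ T →
          (∀ z ∈ adj (tor k L.x L.y T) L.θ, z ∈ W) →
            W.valuation (L.Φ.derivative.eval L.θ) = 1 ∧
            RV W P ≤ locV W (adj (tor k L.x L.y T) L.θ) ∧
            (∀ j, E.u j ∈ locV W (adj (tor k L.x L.y T) L.θ)) ∧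
            ∀ j, (E.u j)⁻¹ ∈ locV W (adj (tor k L.x L.y T) L.θ) := by
  classical
  have hRadj : ∀ w, w ∈ R ↔ w ∈ locV V (adj (tor k L.x L.y {a | mon L.x a ∈ V}) L.θ) :=
    fun w => SetLike.ext_iff.1 L.ring w
  obtain ⟨f, hf⟩ := exists_isMin hV.ov hP
  obtain ⟨Gf, hGf⟩ := ch_fg (f := f) hP.fg
  -- the elements of `R` whose expressions are needed
  set W₁ : Finset K := Gf ∪ (Finset.univ.image E.u ∪ Finset.univ.image fun j => (E.u j)⁻¹)
    with hW₁
  have hW₁R : ∀ w ∈ W₁, w ∈ R := by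
    intro w hw
    rcases Finset.mem_union.1 hw with hw | hw
    · have h1 : w ∈ ch P f := by rw [← hGf]; exact Algebra.subset_adjoin hw
      refine (hLR w).2 (RV_le_LR ?_)
      rw [RV_eq hf]
      exact le_locV _ h1
    · rcases Finset.mem_union.1 hw with hw | hw
      · obtain ⟨j, -, rfl⟩ := Finset.mem_image.1 hw
        exact E.u_mem j
      · obtain ⟨j, -, rfl⟩ := Finset.mem_image.1 hw
        exact E.u_inv j
  have h1 : ∀ w ∈ W₁, ∃ (M : Finset (Fin L.r → ℤ)) (b : K), (∀ m ∈ M, mon L.x m ∈ V) ∧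
      V.valuation b = 1 ∧ b ∈ adj (tor k L.x L.y (M : Set (Fin L.r → ℤ))) L.θ ∧
      ∃ a ∈ adj (tor k L.x L.y (M : Set (Fin L.r → ℤ))) L.θ, w = a / b := by
    intro w hw
    exact locV_tor_fin ((hRadj w).1 (hW₁R w hw))
  choose! M₁ b₁ hM₁ hb₁ hb₁' a₁ ha₁ hab₁ using h1
  -- the coefficients of `Φ`
  have h2 : ∀ i, ∃ M : Finset (Fin L.r → ℤ), (∀ m ∈ M, mon L.x m ∈ V) ∧
      L.Φ.coeff i ∈ tor k L.x L.y (M : Set (Fin L.r → ℤ)) := fun i => tor_fin (L.coeff i)
  choose M₂ hM₂ hΦ₂ using h2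
  -- the basis vectors
  have h3 : ∀ i : Fin L.r, ∃ s : Fin L.r → ℤ, (s = Pi.single i 1 ∨ s = - Pi.single i 1) ∧
      mon L.x s ∈ V := by
    intro i
    rcases V.mem_or_inv_mem (mon L.x (Pi.single i 1)) with h | h
    · exact ⟨_, Or.inl rfl, h⟩
    · exact ⟨_, Or.inr rfl, by rw [mon_neg]; exact h⟩
  choose s₃ hs₃ hs₃' using h3
  set Mt : Finset (Fin L.r → ℤ) := W₁.biUnion M₁ ∪
    ((Finset.range (L.Φ.natDegree + 1)).biUnion M₂ ∪ Finset.univ.image s₃) with hMt
  have hMtV : ∀ m ∈ Mt, mon L.x m ∈ V := by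
    intro m hm
    rcases Finset.mem_union.1 hm with hm | hm
    · obtain ⟨w, hw, hm⟩ := Finset.mem_biUnion.1 hm
      exact hM₁ w hw m hm
    · rcases Finset.mem_union.1 hm with hm | hm
      · obtain ⟨i, -, hm⟩ := Finset.mem_biUnion.1 hm
        exact hM₂ i m hm
      · obtain ⟨i, -, rfl⟩ := Finset.mem_image.1 hm
        exact hs₃' i
  have h4 : ∀ m : Fin L.r → ℤ, ∃ b : ι → ℤ, L.e • m = E.φ b := fun m => by
    obtain ⟨b, hb⟩ := E.tors m
    exact ⟨b, hb.symm⟩
  choose β hβ using h4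
  -- the levels
  set W₂ : Finset K := Finset.univ.image L.y ∪ ({L.θ} ∪ (Finset.univ.image E.u ∪
    Finset.univ.image fun j => (E.u j)⁻¹)) with hW₂
  have hW₂R : ∀ w ∈ W₂, w ∈ R := by
    intro w hw
    rcases Finset.mem_union.1 hw with hw | hw
    · obtain ⟨j, -, rfl⟩ := Finset.mem_image.1 hw
      exact L.y_mem j
    · rcases Finset.mem_union.1 hw with hw | hw
      · rw [Finset.mem_singleton.1 hw]
        exact (hRadj _).2 (le_locV _ (mem_adj _ _))
      · rcases Finset.mem_union.1 hw with hw | hw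
        · obtain ⟨j, -, rfl⟩ := Finset.mem_image.1 hw
          exact E.u_mem j
        · obtain ⟨j, -, rfl⟩ := Finset.mem_image.1 hw
          exact E.u_inv j
  have h5 : ∀ w ∈ W₂, ∃ A₀ : Finset (ι → ℤ), (∀ a ∈ A₀, mon S a ∈ V) ∧
      ∀ A : Finset (ι → ℤ), A₀ ⊆ A → MinA V S A 0 → w ∈ NV V (PA P S A) := fun w hw =>
    LR_level hV.ov hP hS ((hLR w).1 (hW₂R w hw))
  choose! A₅ hA₅ hA₅' using h5
  set A : Finset (ι → ℤ) := {0} ∪ (Mt.image β ∪ W₂.biUnion A₅) with hA
  have hAV : ∀ a ∈ A, mon S a ∈ V := by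
    intro a ha
    rcases Finset.mem_union.1 ha with ha | ha
    · rw [Finset.mem_singleton.1 ha, mon_zero]
      exact V.one_mem
    · rcases Finset.mem_union.1 ha with ha | ha
      · obtain ⟨m, hm, rfl⟩ := Finset.mem_image.1 ha
        rw [← V.valuation_le_one_iff, E.val, ← hβ, mon_nsmul, map_pow]
        exact pow_le_one' ((V.valuation_le_one_iff _).2 (hMtV m hm)) _
      · obtain ⟨w, hw, ha⟩ := Finset.mem_biUnion.1 ha
        exact hA₅ w hw a ha
  have hA0 : (0 : ι → ℤ) ∈ A := Finset.mem_union_left _ (Finset.mem_singleton_self _)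
  have hmin : ∀ W : ValuationSubring K, (∀ a ∈ A, mon S a ∈ W) → MinA W S A 0 := fun W hW =>
    ⟨hA0, fun a ha => by rw [sub_zero]; exact hW a ha⟩
  have hT₀ : ∀ m ∈ Mt, ∃ a ∈ A, L.e • m = E.φ a := fun m hm =>
    ⟨β m, Finset.mem_union_right _ (Finset.mem_union_left _ (Finset.mem_image_of_mem β hm)), hβ m⟩
  -- open conditions
  obtain ⟨F₁, hF₁, hF₁'⟩ := isMin_open hP.fg hf
  have hPA : IsModel (PA P S A) := PA_isModel hP hS ⟨0, hA0⟩
  have h6 : ∀ w ∈ W₂, ∃ F : Finset K, (F : Set K) ⊆ V ∧ ∀ W : ValuationSubring K, Ov k W →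
      (F : Set K) ⊆ W → w ∈ NV W (PA P S A) := by
    intro w hw
    refine NV_open hV.ov hPA (hA₅' w hw A ?_ (hmin V hAV))
    exact (Finset.subset_biUnion_of_mem A₅ hw).trans (Finset.subset_union_right.trans
      Finset.subset_union_right)
  choose! F₆ hF₆ hF₆' using h6
  set δ := L.Φ.derivative.eval L.θ with hδ
  set Fs : Finset K := A.image (mon S) ∪ (F₁ ∪ (W₂.biUnion F₆ ∪
    (W₁.image (fun w => (b₁ w)⁻¹) ∪ {δ⁻¹}))) with hFs
  refine ⟨A, Fs, f, ?_, ?_, ?_, ?_⟩
  · intro z hz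
    rcases Finset.mem_union.1 hz with hz | hz
    · obtain ⟨a, ha, rfl⟩ := Finset.mem_image.1 hz
      exact hAV a ha
    rcases Finset.mem_union.1 hz with hz | hz
    · exact hF₁ (Finset.mem_coe.2 hz)
    rcases Finset.mem_union.1 hz with hz | hz
    · obtain ⟨w, hw, hz⟩ := Finset.mem_biUnion.1 hz
      exact hF₆ w hw (Finset.mem_coe.2 hz)
    rcases Finset.mem_union.1 hz with hz | hz
    · obtain ⟨w, hw, rfl⟩ := Finset.mem_image.1 hz
      exact inv_mem_of_val_eq_one (hb₁ w hw)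
    · rw [Finset.mem_singleton.1 hz]
      exact inv_mem_of_val_eq_one L.der
  · intro i
    by_cases hi : i ∈ Finset.range (L.Φ.natDegree + 1)
    · refine tor_mono (fun m hm => ?_) (hΦ₂ i)
      exact hT₀ m (Finset.mem_union_right _ (Finset.mem_union_left _
        (Finset.mem_biUnion.2 ⟨i, hi, Finset.mem_coe.1 hm⟩)))
    · rw [Finset.mem_range, not_lt] at hi
      rw [Polynomial.coeff_eq_zero_of_natDegree_lt (by omega)]
      exact Subalgebra.zero_mem _
  · intro i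
    obtain ⟨a, ha, h⟩ := hT₀ (s₃ i) (Finset.mem_union_right _ (Finset.mem_union_right _
      (Finset.mem_image_of_mem s₃ (Finset.mem_univ i))))
    rcases hs₃ i with h' | h'
    · rw [h'] at h
      exact Or.inl ⟨a, ha, h⟩
    · rw [h'] at h
      exact Or.inr ⟨a, ha, h⟩
  · intro W hW hFW
    have hFW' : ∀ {G : Finset K}, G ⊆ Fs → (G : Set K) ⊆ W := fun {G} hG z hz =>
      hFW z (hG (Finset.mem_coe.1 hz))
    have hsub1 : A.image (mon S) ⊆ Fs := Finset.subset_union_left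
    have hsub2 : F₁ ⊆ Fs := Finset.subset_union_left.trans Finset.subset_union_right
    have hsub3 : W₂.biUnion F₆ ⊆ Fs := Finset.subset_union_left.trans
      (Finset.subset_union_right.trans Finset.subset_union_right)
    have hsub4 : W₁.image (fun w => (b₁ w)⁻¹) ⊆ Fs := Finset.subset_union_left.trans
      (Finset.subset_union_right.trans (Finset.subset_union_right.trans
        Finset.subset_union_right))
    have hsub5 : δ⁻¹ ∈ Fs := Finset.mem_union_right _ (Finset.mem_union_right _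
      (Finset.mem_union_right _ (Finset.mem_union_right _ (Finset.mem_singleton_self _))))
    have hAW : ∀ a ∈ A, mon S a ∈ W := fun a ha =>
      hFW _ (hsub1 (Finset.mem_image_of_mem (mon S) ha))
    have hfW : IsMin W P f := hF₁' W hW (hFW' hsub2)
    have hNV : ∀ w ∈ W₂, w ∈ NV W (PA P S A) := fun w hw =>
      hF₆' w hw W hW ((Finset.coe_subset.2 (Finset.subset_biUnion_of_mem F₆ hw)).trans
        (hFW' hsub3))
    refine ⟨hfW, hmin W hAW, fun i => hNV _ (Finset.mem_union_left _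
      (Finset.mem_image_of_mem _ (Finset.mem_univ i))),
      hNV _ (Finset.mem_union_right _ (Finset.mem_union_left _ (Finset.mem_singleton_self _))),
      fun j => hNV _ (Finset.mem_union_right _ (Finset.mem_union_right _
        (Finset.mem_union_left _ (Finset.mem_image_of_mem _ (Finset.mem_univ j))))),
      fun j => hNV _ (Finset.mem_union_right _ (Finset.mem_union_right _
        (Finset.mem_union_right _ (Finset.mem_image.2 ⟨j, Finset.mem_univ j, rfl⟩)))),
      fun T hT hTW => ?_⟩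
    set O := adj (tor k L.x L.y T) L.θ with hO
    have hle : ∀ w ∈ W₁, adj (tor k L.x L.y (M₁ w : Set (Fin L.r → ℤ))) L.θ ≤ O := by
      intro w hw
      refine adj_mono (tor_mono fun m hm => hT (hT₀ m ?_))
      exact Finset.mem_union_left _ (Finset.mem_biUnion.2 ⟨w, hw, Finset.mem_coe.1 hm⟩)
    have hW₁O : ∀ w ∈ W₁, w ∈ locV W O := by
      intro w hw
      refine ⟨a₁ w, hle w hw (ha₁ w hw), b₁ w, hle w hw (hb₁' w hw), ?_, hab₁ w hw⟩
      refine val_eq_one_of_mem_inv (ne_zero_of_val_eq_one (hb₁ w hw))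
        (hTW _ (hle w hw (hb₁' w hw))) ?_
      exact hFW _ (hsub4 (Finset.mem_image_of_mem _ hw))
    have hδ0 : δ ≠ 0 := ne_zero_of_val_eq_one L.der
    have hδO : δ ∈ O := by
      have hcoe : ∀ i, L.Φ.coeff i ∈ O := fun i => by
        refine le_adj _ _ (tor_mono ?_ (?_ : L.Φ.coeff i ∈ tor k L.x L.y
          {m | ∃ a ∈ A, L.e • m = E.φ a}))
        · exact hT
        · by_cases hi : i ∈ Finset.range (L.Φ.natDegree + 1)
          · refine tor_mono (fun m hm => ?_) (hΦ₂ i)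
            exact hT₀ m (Finset.mem_union_right _ (Finset.mem_union_left _
              (Finset.mem_biUnion.2 ⟨i, hi, Finset.mem_coe.1 hm⟩)))
          · rw [Finset.mem_range, not_lt] at hi
            rw [Polynomial.coeff_eq_zero_of_natDegree_lt (by omega)]
            exact Subalgebra.zero_mem _
      rw [hδ, Polynomial.eval_eq_sum_range]
      refine Subalgebra.sum_mem _ fun i _ => Subalgebra.mul_mem _ ?_
        (Subalgebra.pow_mem _ (mem_adj _ _) _)
      rw [Polynomial.coeff_derivative]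
      refine Subalgebra.mul_mem _ (hcoe _) ?_
      have : ((i : K) + 1) = ((i + 1 : ℕ) : K) := by push_cast; ring
      rw [this]
      exact natCast_mem _ _
    refine ⟨val_eq_one_of_mem_inv hδ0 (hTW _ hδO) (hFW _ hsub5), ?_, fun j => hW₁O _ ?_,
      fun j => hW₁O _ ?_⟩
    · rw [RV_eq hfW, ← hGf]
      refine locV_le (Algebra.adjoin_le fun z hz => ?_) fun a ha h1 => locV_inv ha h1
      exact hW₁O z (Finset.mem_union_left _ hz)
    · exact Finset.mem_union_right _ (Finset.mem_union_left _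
        (Finset.mem_image_of_mem _ (Finset.mem_univ j)))
    · exact Finset.mem_union_right _ (Finset.mem_union_right _
        (Finset.mem_image.2 ⟨j, Finset.mem_univ j, rfl⟩))

end Pool.Agent.TG
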