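import Pool.Agent.Lib.TGA_h75.Ext
import Pool.Agent.Lib.TGA_h96.Gordan
import Pool.Agent.Lib.TGA_h41.E3
import Pool.Agent.Lib.TGL_h70.EtV
import Pool.Agent.Lib.TGA_h53.DM
import Pool.Agent.Lib.TG.Cpt

/-!
# TANK G, row E4: limit frames at all `V` give a finite atlas
-/

set_option autoImplicit false

namespace Pool.Agent.TG

open Pool.Agent.LU2 (locV le_locV locV_mono locV_le locV_inv locV_locV)

universe u

section

variable {k K : Type u} [Field k] [Field K] [Algebra k K] {V : ValuationSubring K}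
  {P : Submodule k K} {n : ℕ}

theorem fin'_mul {E : Submodule k K} (hF : Fin' P) (hE : E ≠ ⊥) : Fin' (P * E) := by
  obtain ⟨q, hq, hq0⟩ := Submodule.exists_mem_ne_zero_of_ne_bot hE
  have hle : IntermediateField.adjoin k {x : K | ∃ f ∈ P, ∃ g ∈ P, x = g / f} ≤
      IntermediateField.adjoin k {x : K | ∃ f ∈ P * E, ∃ g ∈ P * E, x = g / f} := by
    rw [IntermediateField.adjoin_le_iff]
    rintro _ ⟨f, hf, g, hg, rfl⟩
    refine IntermediateField.subset_adjoin _ _ ⟨f * q, Submodule.mul_mem_mul hf hq, g * q,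
      Submodule.mul_mem_mul hg hq, ?_⟩
    rw [mul_div_mul_right _ _ hq0]
  have h0 : Algebra.IsAlgebraic
      (IntermediateField.adjoin k {x : K | ∃ f ∈ P, ∃ g ∈ P, x = g / f}) K := hF
  refine ⟨fun x => ?_⟩
  let _ := (IntermediateField.inclusion hle).toRingHom.toAlgebra
  have htow : IsScalarTower (IntermediateField.adjoin k {x : K | ∃ f ∈ P, ∃ g ∈ P, x = g / f})
      (IntermediateField.adjoin k {x : K | ∃ f ∈ P * E, ∃ g ∈ P * E, x = g / f}) K :=
    IsScalarTower.of_algebraMap_eq fun _ => rfl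
  exact IsAlgebraic.tower_top _ (h0.isAlgebraic x)

/-- Change of the index. -/
def TChart.changeE {ι : Type} [Fintype ι] [DecidableEq ι] {Q : ι → Submodule k K} {a : ι → ℕ}
    {e e' : ℕ} (C : TChart n P Q a e) (h : e ∣ e') : TChart n P Q a e' :=
  { C with
    tors := fun m => by
      obtain ⟨q, rfl⟩ := h
      obtain ⟨b, hb⟩ := C.tors (q • m)
      exact ⟨b, by rw [hb, smul_smul]⟩ }

end

open scoped Pointwise in
/-- **Row E4.** -/
theorem rowE4 {k : Type u} [Field k] [IsAlgClosed k] {n : ℕ} (h : GLim k n)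
    (K : Type u) [Field K] [Algebra k K] (hK : (⊤ : IntermediateField k K).FG)
    (hn : Algebra.trdeg k K = n) (Z : Finset K) (hZ : ∀ z ∈ Z, z ≠ 0) :
    ∃ (P : Submodule k K) (N : ℕ) (S : Fin N → K) (e : ℕ), IsModel P ∧ Fin' P ∧ (∀ j, S j ≠ 0) ∧
      0 < e ∧ (∀ z ∈ Z, ∃ j, z = S j) ∧
        HasAtlas n P (fun j => Submodule.span k {S j}) (fun _ => 0) e := by
  classical
  obtain ⟨P, N₀, S₀, hP, hF, hS₀, hL⟩ := h K hK hn Z hZ
  set Z' : Fin Z.card → K := fun i => (Z.equivFin.symm i : K) with hZ'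
  have hZ'Z : ∀ i, Z' i ∈ (Z : Set K) := fun i => (Z.equivFin.symm i).2
  set S : Fin (N₀ + Z.card) → K := Fin.append S₀ Z' with hSdef
  have hS : ∀ j, S j ≠ 0 := by
    intro j
    refine Fin.addCases (fun i => ?_) (fun i => ?_) j
    · rw [hSdef, Fin.append_left]
      exact hS₀ i
    · rw [hSdef, Fin.append_right]
      exact hZ _ (hZ'Z i)
  -- the local data
  have hloc : ∀ V : ValuationSubring K, ZDim k V → ∃ (A : Finset (Fin (N₀ + Z.card) → ℤ))
      (Fs : Finset K) (e : ℕ), 0 < e ∧ A.Nonempty ∧ (∀ z ∈ Fs, z ∈ V) ∧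
      ∀ (B : Finset (Fin (N₀ + Z.card) → ℤ)) (b₂ : Fin (N₀ + Z.card) → ℤ), b₂ ∈ B →
        ∃ C : TChart n (PA P S (A + B)) (fun j => Submodule.span k {S j}) (fun _ => 0) e,
          ∀ z ∈ C.F, z ∈ Fs ∨ ∃ b ∈ B, z = mon S (b - b₂) := by
    intro V hV
    obtain ⟨L₀⟩ := hL V hV
    obtain ⟨L⟩ := Pool.Agent.TGLh70.rowE1 hV (LR_le hV.ov hP) L₀
    have ind := rowE3 hn hV.ov hP hF L
    obtain ⟨A, Fs, hA, hFs, hC⟩ := exists_charts (k := k) (fun T hT => rowE2a T hT)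
      (fun ind T hT hs => Pool.Agent.TGh53.nrm_tor ind hT (fun m n hn hm => hs n m hn hm)) hV hP hF
      hS (L.append Z' hZ'Z) (fun w => by rw [L.append_LR rfl Z' hZ'Z]) ind
    exact ⟨A, Fs, L.e, L.e_pos, hA, hFs, hC⟩
  choose! A Fs e he hA hFs hC using hloc
  obtain ⟨t, ht, hcov⟩ := cpt_list_zdim (k := k) Fs (fun V hV z hz => hFs V hV z hz)
  set As : Finset (Fin (N₀ + Z.card) → ℤ) := ∑ W ∈ t, A W with hAs
  set B : ValuationSubring K → Finset (Fin (N₀ + Z.card) → ℤ) :=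
    fun W => ∑ W' ∈ t.erase W, A W' with hB
  have hsum : ∀ W ∈ t, A W + B W = As := fun W hW => Finset.add_sum_erase t A hW
  have hne : ∀ s : Finset (ValuationSubring K), (∀ W ∈ s, ZDim k W) →
      (∑ W ∈ s, A W).Nonempty := by
    intro s hs
    induction s using Finset.induction_on with
    | empty => rw [Finset.sum_empty]; exact Finset.zero_nonempty
    | insert W s hWs ih =>
      rw [Finset.sum_insert hWs]
      exact (hA W (hs W (Finset.mem_insert_self _ _))).add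
        (ih fun W' hW' => hs W' (Finset.mem_insert_of_mem hW'))
  have hBne : ∀ W, (B W).Nonempty := fun W =>
    hne _ fun W' hW' => ht W' (Finset.mem_of_mem_erase hW')
  set es : ℕ := ∏ W ∈ t, e W with hes
  have hes0 : 0 < es := Finset.prod_pos fun W hW => he W (ht W hW)
  have hC' : ∀ W ∈ t, ∀ b ∈ B W, ∃ C : TChart n (PA P S As)
      (fun j => Submodule.span k {S j}) (fun _ => 0) es,
        ∀ z ∈ C.F, z ∈ Fs W ∨ ∃ b' ∈ B W, z = mon S (b' - b) := by
    intro W hW b hb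
    have h1 := hC W (ht W hW) (B W) b hb
    rw [hsum W hW] at h1
    obtain ⟨C, hCF⟩ := h1
    exact ⟨C.changeE (Finset.dvd_prod_of_mem e hW), hCF⟩
  have hPA : IsModel (PA P S As) := PA_isModel hP hS (hne t ht)
  refine ⟨PA P S As, N₀ + Z.card, S, es, hPA, fin'_mul hF (spanA_isModel hS (hne t ht)).ne, hS,
    hes0, fun z hz => ?_, ?_⟩
  · refine ⟨Fin.natAdd N₀ (Z.equivFin ⟨z, hz⟩), ?_⟩
    rw [hSdef, Fin.append_right, hZ']
    simp
  · let J := Σ W : t, B W.1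
    choose C₀ hC₀ using fun p : J => hC' p.1.1 p.1.2 p.2.1 p.2.2
    let eJ := Fintype.equivFin J
    refine ⟨Fintype.card J, fun i => C₀ (eJ.symm i), fun V hV => ?_⟩
    obtain ⟨W, hW, hWV⟩ := hcov V hV.ov
    obtain ⟨b, hb⟩ := exists_minA hS (hBne W) V
    refine ⟨eJ ⟨⟨W, hW⟩, ⟨b, hb.1⟩⟩, fun z hz => ?_⟩
    simp only [Equiv.symm_apply_apply] at hz
    rcases hC₀ ⟨⟨W, hW⟩, ⟨b, hb.1⟩⟩ z hz with h1 | ⟨b', hb', rfl⟩
    · exact hWV (Finset.mem_coe.2 h1)
    · exact hb.2 b' hb'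

end Pool.Agent.TG
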