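import Pool.Agent.Lib.TGA_h75.ChartE

/-!
# TANK G, E4: adding the monomial functions `Z` to `S`
-/

set_option autoImplicit false

namespace Pool.Agent.TG

open Pool.Agent.LU2 (locV le_locV locV_mono locV_le locV_inv locV_locV)

universe u

variable {k K : Type u} [Field k] [Field K] [Algebra k K] {V : ValuationSubring K}
  {P : Submodule k K} {n : ℕ} {Z : Set K} {R : Subalgebra k K}

theorem mon_append {N M : ℕ} (S : Fin N → K) (S' : Fin M → K) (a : Fin (N + M) → ℤ) :
    mon (Fin.append S S') a = mon S (fun i => a (Fin.castAdd M i)) *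
      mon S' (fun i => a (Fin.natAdd N i)) := by
  simp only [mon, Fin.prod_univ_add, Fin.append_left, Fin.append_right]

theorem mon_append_zero {N M : ℕ} (S : Fin N → K) (S' : Fin M → K) (b : Fin N → ℤ) :
    mon (Fin.append S S') (Fin.append b 0) = mon S b := by
  rw [mon_append]
  simp only [Fin.append_left, Fin.append_right]
  have : mon S' (fun i => (0 : Fin M → ℤ) i) = 1 := mon_zero
  rw [this, mul_one]

/-- Adding elements of `Z` to the family. -/
def LE.append {N M : ℕ} {S : Fin N → K} (L : LE n V R S Z) (S' : Fin M → K)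
    (hS' : ∀ i, S' i ∈ Z) : LE n V R (Fin.append S S') Z where
  r := L.r
  D := L.D
  dim := L.dim
  x := L.x
  x_ne := L.x_ne
  val := L.val
  y := L.y
  y_mem := L.y_mem
  y_pos := L.y_pos
  mon_mem := L.mon_mem
  fgen := L.fgen
  gen := L.gen
  S_mono := fun j => by
    refine Fin.addCases (fun i => ?_) (fun i => ?_) j
    · rw [Fin.append_left]
      exact L.S_mono i
    · rw [Fin.append_right]
      exact L.Z_mono _ (hS' i)
  Z_mono := L.Z_mono
  e := L.e
  e_pos := L.e_pos
  tors := fun a => by
    obtain ⟨b, hb⟩ := L.tors a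
    exact ⟨Fin.append b 0, by rw [mon_append_zero]; exact hb⟩
  θ := L.θ
  Φ := L.Φ
  monic := L.monic
  coeff := L.coeff
  root := L.root
  der := L.der
  ring := L.ring

/-- The limit ring does not change. -/
theorem LE.append_LR {N M : ℕ} {S : Fin N → K} (L : LE n V R S Z)
    (hLR : R = LR V P S) (S' : Fin M → K) (hS' : ∀ i, S' i ∈ Z) :
    LR V P (Fin.append S S') = LR V P S := by
  have hinv : ∀ f ∈ R, V.valuation f = 1 → f⁻¹ ∈ R := fun f hf h1 => by
    rw [hLR] at hf ⊢
    exact locV_inv hf h1
  refine le_antisymm ?_ ?_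
  · obtain ⟨E⟩ := (L.append S' hS').toLF.exists_exps hinv
    rw [← hLR]
    have h1 : Algebra.adjoin k ((RV V P : Set K) ∪
        {z | z ∈ V ∧ ∃ a : Fin (N + M) → ℤ, z = mon (Fin.append S S') a}) ≤ R := by
      refine Algebra.adjoin_le ?_
      rintro z (hz | ⟨hz, a, rfl⟩)
      · rw [hLR]
        exact RV_le_LR hz
      · have h2 : mon L.x (E.φ a) ∈ V := by
          rw [← V.valuation_le_one_iff]
          have := E.val a
          have h3 := (V.valuation_le_one_iff _).2 hz
          rw [this] at h3
          exact h3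
        have h3 := E.eq a
        rw [h3]
        exact Subalgebra.mul_mem _ (L.mon_mem _ h2) (mon_mem_of E.u_mem E.u_inv a)
    have h4 : LR V P (Fin.append S S') ≤ locV V (ncl R) := locV_mono (ncl_mono h1)
    refine h4.trans ?_
    rw [hLR, locV_ncl_LR]
  · refine locV_mono (ncl_mono (Algebra.adjoin_mono ?_))
    rintro z (hz | ⟨hz, a, rfl⟩)
    · exact Or.inl hz
    · exact Or.inr ⟨hz, Fin.append a 0, (mon_append_zero S S' a).symm⟩

end Pool.Agent.TG
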