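import Pool.Agent.Lib.TGA_h75.LF
import Pool.Agent.Lib.TG.Centre

/-!
# TANK G, E4: elements of `locV V (ncl (adjoin X))` are at a finite level
-/

set_option autoImplicit false

namespace Pool.Agent.TG

open Pool.Agent.LU2 (locV le_locV locV_mono locV_le locV_inv)

universe u

variable {k K : Type u} [Field k] [Field K] [Algebra k K] {V : ValuationSubring K}

theorem adjoin_fin {X : Set K} {w : K} (hw : w ∈ Algebra.adjoin k X) :
    ∃ F : Finset K, (F : Set K) ⊆ X ∧ w ∈ Algebra.adjoin k (F : Set K) := by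
  classical
  induction hw using Algebra.adjoin_induction with
  | mem x hx => exact ⟨{x}, by simpa using hx, Algebra.subset_adjoin (by simp)⟩
  | algebraMap c => exact ⟨∅, by simp, Subalgebra.algebraMap_mem _ c⟩
  | add x y _ _ hx hy =>
    obtain ⟨F, hF, hx⟩ := hx
    obtain ⟨G, hG, hy⟩ := hy
    refine ⟨F ∪ G, by rw [Finset.coe_union]; exact Set.union_subset hF hG, ?_⟩
    rw [Finset.coe_union]
    exact Subalgebra.add_mem _ (Algebra.adjoin_mono Set.subset_union_left hx)
      (Algebra.adjoin_mono Set.subset_union_right hy)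
  | mul x y _ _ hx hy =>
    obtain ⟨F, hF, hx⟩ := hx
    obtain ⟨G, hG, hy⟩ := hy
    refine ⟨F ∪ G, by rw [Finset.coe_union]; exact Set.union_subset hF hG, ?_⟩
    rw [Finset.coe_union]
    exact Subalgebra.mul_mem _ (Algebra.adjoin_mono Set.subset_union_left hx)
      (Algebra.adjoin_mono Set.subset_union_right hy)

theorem adjoin_fin_all {X : Set K} {ι : Type*} (s : Finset ι) (w : ι → K)
    (hw : ∀ i ∈ s, w i ∈ Algebra.adjoin k X) :
    ∃ F : Finset K, (F : Set K) ⊆ X ∧ ∀ i ∈ s, w i ∈ Algebra.adjoin k (F : Set K) := by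
  classical
  induction s using Finset.induction_on with
  | empty => exact ⟨∅, by simp, by simp⟩
  | insert i s _ ih =>
    obtain ⟨F, hF, h1⟩ := ih fun j hj => hw j (Finset.mem_insert_of_mem hj)
    obtain ⟨G, hG, h2⟩ := adjoin_fin (hw i (Finset.mem_insert_self _ _))
    refine ⟨F ∪ G, by rw [Finset.coe_union]; exact Set.union_subset hF hG, fun j hj => ?_⟩
    rw [Finset.coe_union]
    rcases Finset.mem_insert.1 hj with rfl | hj
    · exact Algebra.adjoin_mono Set.subset_union_right h2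
    · exact Algebra.adjoin_mono Set.subset_union_left (h1 j hj)

theorem ncl_fin {X : Set K} {w : K} (hw : w ∈ ncl (Algebra.adjoin k X)) :
    ∃ F : Finset K, (F : Set K) ⊆ X ∧ w ∈ ncl (Algebra.adjoin k (F : Set K)) := by
  classical
  obtain ⟨p, hp, hc, h0⟩ := exists_poly_of_mem_ncl hw
  obtain ⟨F, hF, h1⟩ := adjoin_fin_all (Finset.range (p.natDegree + 1)) (fun i => p.coeff i)
    fun i _ => hc i
  refine ⟨F, hF, mem_ncl_of_root p hp (fun i => ?_) h0⟩
  by_cases hi : i ∈ Finset.range (p.natDegree + 1)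
  · exact le_ncl _ (h1 i hi)
  · rw [Polynomial.coeff_eq_zero_of_natDegree_lt (by
      rw [Finset.mem_range] at hi; omega)]
    exact Subalgebra.zero_mem _

theorem locV_ncl_fin {X : Set K} {w : K} (hw : w ∈ locV V (ncl (Algebra.adjoin k X))) :
    ∃ F : Finset K, (F : Set K) ⊆ X ∧ w ∈ locV V (ncl (Algebra.adjoin k (F : Set K))) := by
  classical
  obtain ⟨a, ha, b, hb, h1, rfl⟩ := hw
  obtain ⟨F, hF, ha'⟩ := ncl_fin ha
  obtain ⟨G, hG, hb'⟩ := ncl_fin hb
  refine ⟨F ∪ G, by rw [Finset.coe_union]; exact Set.union_subset hF hG, a, ?_, b, ?_, h1, rfl⟩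
  · rw [Finset.coe_union]
    exact ncl_mono (Algebra.adjoin_mono Set.subset_union_left) ha'
  · rw [Finset.coe_union]
    exact ncl_mono (Algebra.adjoin_mono Set.subset_union_right) hb'

/-- Form with data: `w = a / b`, `a, b` in the algebra generated by finitely many elements. -/
theorem locV_fin {X : Set K} {w : K} (hw : w ∈ locV V (Algebra.adjoin k X)) :
    ∃ (F : Finset K) (a b : K), (F : Set K) ⊆ X ∧ a ∈ Algebra.adjoin k (F : Set K) ∧
      b ∈ Algebra.adjoin k (F : Set K) ∧ V.valuation b = 1 ∧ w = a / b := by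
  classical
  obtain ⟨a, ha, b, hb, h1, rfl⟩ := hw
  obtain ⟨F, hF, ha'⟩ := adjoin_fin ha
  obtain ⟨G, hG, hb'⟩ := adjoin_fin hb
  refine ⟨F ∪ G, a, b, by rw [Finset.coe_union]; exact Set.union_subset hF hG, ?_, ?_, h1, rfl⟩
  · rw [Finset.coe_union]
    exact Algebra.adjoin_mono Set.subset_union_left ha'
  · rw [Finset.coe_union]
    exact Algebra.adjoin_mono Set.subset_union_right hb'

end Pool.Agent.TG
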