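import Pool.Agent.Lib.TGA_h75.PA
import Pool.Agent.Lib.TG.A5
import Pool.Agent.Lib.TG_h53.Trace

/-!
# TANK G, E4: fields of fractions, the toric rings at a finite level
-/

set_option autoImplicit false

namespace Pool.Agent.TG

open Pool.Agent.LU2 (locV le_locV locV_mono locV_le locV_inv locV_locV)
open Pool.Agent.TGh53 (frac Nrm adj le_adj mem_adj adj_le)

universe u

variable {k K : Type u} [Field k] [Field K] [Algebra k K] {V : ValuationSubring K}
  {P : Submodule k K} {ι : Type} [Fintype ι] {S : ι → K}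

theorem frac_mono {A B : Subalgebra k K} (h : A ≤ B) : frac A ⊆ frac B := by
  rintro _ ⟨b, hb, c, hc, hc0, rfl⟩
  exact ⟨b, h hb, c, h hc, hc0, rfl⟩

/-- The field of fractions of `A` inside `K`. -/
def fracE (A : Subalgebra k K) : IntermediateField k K where
  carrier := frac A
  mul_mem' := by
    rintro _ _ ⟨b, hb, c, hc, hc0, rfl⟩ ⟨b', hb', c', hc', hc0', rfl⟩
    exact ⟨b * b', A.mul_mem hb hb', c * c', A.mul_mem hc hc', mul_ne_zero hc0 hc0', by
      rw [div_mul_div_comm]⟩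
  add_mem' := by
    rintro _ _ ⟨b, hb, c, hc, hc0, rfl⟩ ⟨b', hb', c', hc', hc0', rfl⟩
    exact ⟨b * c' + c * b', A.add_mem (A.mul_mem hb hc') (A.mul_mem hc hb'), c * c',
      A.mul_mem hc hc', mul_ne_zero hc0 hc0', by rw [div_add_div _ _ hc0 hc0']⟩
  algebraMap_mem' := fun c => ⟨_, A.algebraMap_mem c, 1, A.one_mem, one_ne_zero, by rw [div_one]⟩
  inv_mem' := by
    rintro _ ⟨b, hb, c, hc, hc0, rfl⟩
    by_cases hb0 : b = 0
    · exact ⟨0, A.zero_mem, 1, A.one_mem, one_ne_zero, by rw [hb0]; simp⟩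
    · exact ⟨c, hc, b, hb, hb0, by rw [inv_div]⟩

theorem mem_fracE {A : Subalgebra k K} {x : K} : x ∈ fracE A ↔ x ∈ frac A := Iff.rfl

theorem le_fracE (A : Subalgebra k K) : A ≤ (fracE A).toSubalgebra := fun a ha =>
  ⟨a, ha, 1, A.one_mem, one_ne_zero, by rw [div_one]⟩

theorem frac_le {A : Subalgebra k K} {E : IntermediateField k K} (h : A ≤ E.toSubalgebra) {z : K}
    (hz : z ∈ frac A) : z ∈ E := by
  obtain ⟨b, hb, c, hc, hc0, rfl⟩ := hz
  exact div_mem (h hb) (h hc)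

theorem locV_le_frac {A : Subalgebra k K} {z : K} (hz : z ∈ locV V A) : z ∈ frac A := by
  obtain ⟨a, ha, b, hb, h1, rfl⟩ := hz
  exact ⟨a, ha, b, hb, ne_zero_of_val_eq_one h1, rfl⟩

theorem locV_ncl_LR : locV V (ncl (LR V P S)) = LR V P S := by
  rw [LR, locV_ncl_locV, ncl_ncl]

theorem RV_le_LR : RV V P ≤ LR V P S := fun _ ha =>
  le_locV _ (le_ncl _ (Algebra.subset_adjoin (Or.inl ha)))

theorem LR_le (hV : Ov k V) (hP : IsModel P) : ∀ a ∈ LR V P S, a ∈ V :=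
  Pool.Agent.LU2.locV_mem (ncl_mem fun a ha => by
    have : Algebra.adjoin k ((RV V P : Set K) ∪ {z | z ∈ V ∧ ∃ a : ι → ℤ, z = mon S a}) ≤
        valg hV := Algebra.adjoin_le (by
      rintro z (hz | ⟨hz, -⟩)
      · exact RV_le hV hP z hz
      · exact hz)
    exact this ha)

/-- `K` is the field of fractions of the limit ring of a finite model. -/
theorem LR_frac (hV : Ov k V) (hP : IsModel P) (hF : Fin' P) (z : K) : z ∈ frac (LR V P S) := by
  obtain ⟨f, hf⟩ := exists_isMin hV hP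
  have h1 := hF.isAlgebraic hf.ne z
  obtain ⟨d, hd0, hd⟩ := h1.exists_integral_multiple
  have hd0' : (d : K) ≠ 0 := fun h => hd0 (Subtype.ext h)
  have hle : ch P f ≤ LR V P S := by
    refine le_trans (?_ : ch P f ≤ RV V P) RV_le_LR
    rw [RV_eq hf]
    exact le_locV _
  have h2 : (d : K) * z ∈ LR V P S := by
    rw [← locV_ncl_LR]
    refine le_locV _ (ncl_mono hle ?_)
    have h3 : d • z = (d : K) * z := rfl
    rw [← h3]
    exact hd
  refine ⟨_, h2, d, hle d.2, hd0', ?_⟩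
  rw [mul_div_cancel_left₀ z hd0']

/-! ### toric rings -/

variable {r D : ℕ} {x : Fin r → K} {y : Fin D → K}

theorem tor_mono {T T' : Set (Fin r → ℤ)} (h : T ⊆ T') : tor k x y T ≤ tor k x y T' :=
  Algebra.adjoin_mono (Set.union_subset_union_left _ (Set.image_mono h))

theorem mon_mem_tor {T : Set (Fin r → ℤ)} {m : Fin r → ℤ} (hm : m ∈ T) :
    mon x m ∈ tor k x y T := Algebra.subset_adjoin (Or.inl ⟨m, hm, rfl⟩)

theorem y_mem_tor {T : Set (Fin r → ℤ)} (i : Fin D) : y i ∈ tor k x y T :=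
  Algebra.subset_adjoin (Or.inr ⟨i, rfl⟩)

theorem tor_le {T : Set (Fin r → ℤ)} {R : Subalgebra k K} (h1 : ∀ m ∈ T, mon x m ∈ R)
    (h2 : ∀ i, y i ∈ R) : tor k x y T ≤ R := by
  refine Algebra.adjoin_le ?_
  rintro z (⟨m, hm, rfl⟩ | ⟨i, rfl⟩)
  · exact h1 m hm
  · exact h2 i

theorem tor_fin {T : Set (Fin r → ℤ)} {w : K} (hw : w ∈ tor k x y T) :
    ∃ M : Finset (Fin r → ℤ), (∀ m ∈ M, m ∈ T) ∧ w ∈ tor k x y (M : Set (Fin r → ℤ)) := by
  classical
  obtain ⟨F, hF, hw⟩ := adjoin_fin hw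
  have h1 : ∀ z ∈ F, ∃ m : Fin r → ℤ, (z ∈ Set.range y ∨ (m ∈ T ∧ z = mon x m)) := by
    intro z hz
    rcases hF hz with ⟨m, hm, rfl⟩ | hz
    · exact ⟨m, Or.inr ⟨hm, rfl⟩⟩
    · exact ⟨0, Or.inl hz⟩
  choose! g hg using h1
  refine ⟨(F.filter fun z => ¬ z ∈ Set.range y).image g, fun m hm => ?_, ?_⟩
  · obtain ⟨z, hz, rfl⟩ := Finset.mem_image.1 hm
    obtain ⟨hz, hzy⟩ := Finset.mem_filter.1 hz
    exact ((hg z hz).resolve_left hzy).1
  · refine Algebra.adjoin_le (fun z hz => ?_) hw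
    by_cases hzy : z ∈ Set.range y
    · obtain ⟨i, rfl⟩ := hzy
      exact y_mem_tor i
    · rw [((hg z hz).resolve_left hzy).2]
      exact mon_mem_tor (Finset.mem_coe.2 (Finset.mem_image_of_mem g
        (Finset.mem_filter.2 ⟨hz, hzy⟩)))

theorem adj_mono {A B : Subalgebra k K} {θ : K} (h : A ≤ B) : adj A θ ≤ adj B θ :=
  adj_le (h.trans (le_adj B θ)) (mem_adj B θ)

theorem adj_tor_fin {T : Set (Fin r → ℤ)} {θ w : K} (hw : w ∈ adj (tor k x y T) θ) :
    ∃ M : Finset (Fin r → ℤ), (∀ m ∈ M, m ∈ T) ∧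
      w ∈ adj (tor k x y (M : Set (Fin r → ℤ))) θ := by
  classical
  obtain ⟨F, hF, hw⟩ := adjoin_fin hw
  have h1 : ∀ z ∈ F, ∃ M : Finset (Fin r → ℤ), (∀ m ∈ M, m ∈ T) ∧
      (z = θ ∨ z ∈ tor k x y (M : Set (Fin r → ℤ))) := by
    intro z hz
    rcases hF hz with hz | hz
    · obtain ⟨M, hM, h⟩ := tor_fin hz
      exact ⟨M, hM, Or.inr h⟩
    · exact ⟨∅, by simp, Or.inl hz⟩
  choose! g hg1 hg2 using h1
  refine ⟨F.biUnion g, fun m hm => ?_, Algebra.adjoin_le (fun z hz => ?_) hw⟩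
  · obtain ⟨z, hz, hm⟩ := Finset.mem_biUnion.1 hm
    exact hg1 z hz m hm
  · rcases hg2 z hz with h | h
    · rw [h]
      exact mem_adj _ _
    · refine le_adj _ _ (tor_mono ?_ h)
      exact_mod_cast Finset.subset_biUnion_of_mem g hz

/-- Elements of the local ring of `k[x^T, y][θ]` involve only finitely many monomials. -/
theorem locV_tor_fin {T : Set (Fin r → ℤ)} {θ w : K} (hw : w ∈ locV V (adj (tor k x y T) θ)) :
    ∃ (M : Finset (Fin r → ℤ)) (b : K), (∀ m ∈ M, m ∈ T) ∧ V.valuation b = 1 ∧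
      b ∈ adj (tor k x y (M : Set (Fin r → ℤ))) θ ∧
      ∃ a ∈ adj (tor k x y (M : Set (Fin r → ℤ))) θ, w = a / b := by
  classical
  obtain ⟨a, ha, b, hb, h1, rfl⟩ := hw
  obtain ⟨M, hM, ha⟩ := adj_tor_fin ha
  obtain ⟨M', hM', hb⟩ := adj_tor_fin hb
  refine ⟨M ∪ M', b, fun m hm => ?_, h1, ?_, a, ?_, rfl⟩
  · rcases Finset.mem_union.1 hm with hm | hm
    · exact hM m hm
    · exact hM' m hm
  · exact adj_mono (tor_mono (by exact_mod_cast Finset.subset_union_right)) hb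
  · exact adj_mono (tor_mono (by exact_mod_cast Finset.subset_union_left)) ha

/-- If `T` contains `± e i` for all `i` then the field of fractions of `k[x^T, y][θ]` contains all
monomials. -/
theorem mon_mem_frac {T : Set (Fin r → ℤ)} {A : Subalgebra k K}
    (hA : ∀ m ∈ T, mon x m ∈ A) (hT : ∀ i, Pi.single i (1 : ℤ) ∈ T ∨ - Pi.single i (1 : ℤ) ∈ T)
    (m : Fin r → ℤ) : mon x m ∈ fracE A := by
  classical
  have h1 : ∀ i, x i ∈ fracE A := by
    intro i
    rcases hT i with h | h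
    · have := le_fracE A (hA _ h)
      rwa [mon_single] at this
    · have := le_fracE A (hA _ h)
      rw [mon_neg, mon_single] at this
      have h2 : (x i)⁻¹ ∈ fracE A := this
      have h3 := inv_mem h2
      rwa [inv_inv] at h3
  exact prod_mem fun i _ => zpow_mem (h1 i) _

end Pool.Agent.TG
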