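import Pool.Agent.Lib.TGA_h75.FinSup

/-!
# TANK G, E4: the models `P(A) = P * span (S^a : a ∈ A)`
-/

set_option autoImplicit false

namespace Pool.Agent.TG

open Pool.Agent.LU2 (locV le_locV locV_mono locV_le locV_inv locV_locV)

universe u

variable {k K : Type u} [Field k] [Field K] [Algebra k K] {V : ValuationSubring K}
  {P : Submodule k K} {ι : Type} [Fintype ι] {S : ι → K}

/-- The model `P` blown up in the monomials `S^a`, `a ∈ A`. -/
def PA (P : Submodule k K) (S : ι → K) (A : Finset (ι → ℤ)) : Submodule k K :=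
  P * Submodule.span k (mon S '' (A : Set (ι → ℤ)))

/-- `b` is an element of `A` of minimal value. -/
def MinA (V : ValuationSubring K) (S : ι → K) (A : Finset (ι → ℤ)) (b : ι → ℤ) : Prop :=
  b ∈ A ∧ ∀ a ∈ A, mon S (a - b) ∈ V

theorem spanA_isModel (hS : ∀ j, S j ≠ 0) {A : Finset (ι → ℤ)} (hA : A.Nonempty) :
    IsModel (Submodule.span k (mon S '' (A : Set (ι → ℤ)))) := by
  refine ⟨Submodule.fg_span (A.finite_toSet.image _), fun h => ?_⟩
  obtain ⟨a, ha⟩ := hA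
  rw [Submodule.span_eq_bot] at h
  exact mon_ne_zero hS a (h _ ⟨a, ha, rfl⟩)

theorem PA_isModel (hP : IsModel P) (hS : ∀ j, S j ≠ 0) {A : Finset (ι → ℤ)}
    (hA : A.Nonempty) : IsModel (PA P S A) := hP.mul (spanA_isModel hS hA)

theorem spanA_isMin (hV : Ov k V) (hS : ∀ j, S j ≠ 0) {A : Finset (ι → ℤ)} {b : ι → ℤ}
    (hb : MinA V S A b) : IsMin V (Submodule.span k (mon S '' (A : Set (ι → ℤ)))) (mon S b) := by
  refine isMin_of_span hV (Submodule.subset_span ⟨b, hb.1, rfl⟩) (mon_ne_zero hS b) ?_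
  rintro _ ⟨a, ha, rfl⟩
  rw [← mon_sub hS]
  exact hb.2 a ha

theorem PA_isMin (hV : Ov k V) (hS : ∀ j, S j ≠ 0) {A : Finset (ι → ℤ)} {b : ι → ℤ}
    (hb : MinA V S A b) {f : K} (hf : IsMin V P f) : IsMin V (PA P S A) (f * mon S b) :=
  hf.mul (spanA_isMin hV hS hb)

theorem ch_spanA (hS : ∀ j, S j ≠ 0) (A : Finset (ι → ℤ)) (b : ι → ℤ) :
    ch (Submodule.span k (mon S '' (A : Set (ι → ℤ)))) (mon S b) =
      Algebra.adjoin k {z | ∃ a ∈ A, z = mon S (a - b)} := by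
  refine le_antisymm (ch_le_iff.2 fun g hg => ?_) (Algebra.adjoin_le ?_)
  · induction hg using Submodule.span_induction with
    | mem x hx =>
      obtain ⟨a, ha, rfl⟩ := hx
      rw [← mon_sub hS]
      exact Algebra.subset_adjoin ⟨a, ha, rfl⟩
    | zero => rw [zero_div]; exact Subalgebra.zero_mem _
    | add x y _ _ hx hy => rw [add_div]; exact Subalgebra.add_mem _ hx hy
    | smul c x _ hx => rw [smul_div_assoc]; exact Subalgebra.smul_mem _ hx c
  · rintro z ⟨a, ha, rfl⟩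
    rw [mon_sub hS]
    exact div_mem_ch (Submodule.subset_span ⟨a, ha, rfl⟩)

/-- The local ring of the normalisation of `P(A)`. -/
theorem NV_PA (hV : Ov k V) (hP : IsModel P) (hS : ∀ j, S j ≠ 0) {A : Finset (ι → ℤ)}
    {b : ι → ℤ} (hb : MinA V S A b) : NV V (PA P S A) =
      locV V (ncl (Algebra.adjoin k ((RV V P : Set K) ∪ {z | ∃ a ∈ A, z = mon S (a - b)}))) := by
  have h1 : Algebra.adjoin k ((RV V P : Set K) ∪ {z | ∃ a ∈ A, z = mon S (a - b)}) =
      RV V P ⊔ Algebra.adjoin k {z | ∃ a ∈ A, z = mon S (a - b)} := by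
    rw [Algebra.adjoin_union, Algebra.adjoin_eq]
  have h2 : RV V (Submodule.span k (mon S '' (A : Set (ι → ℤ)))) =
      locV V (Algebra.adjoin k {z | ∃ a ∈ A, z = mon S (a - b)}) := by
    rw [RV_eq (spanA_isMin hV hS hb), ch_spanA hS]
  rw [NV, PA, RV_mul hV hP (spanA_isModel hS ⟨b, hb.1⟩), h1, h2, sup_comm, locV_sup, sup_comm,
    locV_ncl_locV]

/-- A criterion for `NV V (P(A)) ≤ R`. -/
theorem NV_PA_le (hV : Ov k V) (hP : IsModel P) (hS : ∀ j, S j ≠ 0) {A : Finset (ι → ℤ)}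
    {b : ι → ℤ} (hb : MinA V S A b) {R : Subalgebra k K} (hR : locV V (ncl R) ≤ R)
    (h1 : RV V P ≤ R) (h2 : ∀ a ∈ A, mon S (a - b) ∈ R) : NV V (PA P S A) ≤ R := by
  rw [NV_PA hV hP hS hb]
  refine le_trans (locV_mono (ncl_mono (Algebra.adjoin_le ?_))) hR
  rintro z (hz | ⟨a, ha, rfl⟩)
  · exact h1 hz
  · exact h2 a ha

theorem locV_ncl_NV' : locV V (ncl (NV V P)) = NV V P := by
  rw [NV, locV_ncl_locV, ncl_ncl]

theorem ncl_NV_le {z : K} (hz : z ∈ ncl (NV V P)) : z ∈ NV V P := by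
  rw [← locV_ncl_NV' (V := V) (P := P)]
  exact le_locV _ hz

theorem RV_le_PA (hV : Ov k V) (hP : IsModel P) (hS : ∀ j, S j ≠ 0) {A : Finset (ι → ℤ)}
    (hA : A.Nonempty) : RV V P ≤ NV V (PA P S A) :=
  (RV_le_mul_left hV hP (spanA_isModel hS hA)).trans RV_le_NV

theorem mon_mem_PA (hV : Ov k V) (hP : IsModel P) (hS : ∀ j, S j ≠ 0) {A : Finset (ι → ℤ)}
    {b : ι → ℤ} (hb : MinA V S A b) {a : ι → ℤ} (ha : a ∈ A) :
    mon S (a - b) ∈ NV V (PA P S A) := by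
  rw [NV_PA hV hP hS hb]
  exact le_locV _ (le_ncl _ (Algebra.subset_adjoin (Or.inr ⟨a, ha, rfl⟩)))

open scoped Pointwise in
theorem MinA.add [DecidableEq ι] (hS : ∀ j, S j ≠ 0) {A B : Finset (ι → ℤ)} {a b : ι → ℤ}
    (ha : MinA V S A a) (hb : MinA V S B b) : MinA V S (A + B) (a + b) := by
  refine ⟨Finset.add_mem_add ha.1 hb.1, fun c hc => ?_⟩
  obtain ⟨a', ha', b', hb', rfl⟩ := Finset.mem_add.1 hc
  rw [show a' + b' - (a + b) = (a' - a) + (b' - b) by abel, mon_add hS]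
  exact V.mul_mem _ _ (ha.2 a' ha') (hb.2 b' hb')

open scoped Pointwise in
/-- Monotonicity. -/
theorem NV_PA_mono [DecidableEq ι] (hV : Ov k V) (hP : IsModel P) (hS : ∀ j, S j ≠ 0)
    {A B : Finset (ι → ℤ)} {a b : ι → ℤ} (ha : MinA V S A a) (hb : MinA V S B b) :
    NV V (PA P S A) ≤ NV V (PA P S (A + B)) := by
  refine NV_PA_le hV hP hS ha locV_ncl_NV'.le
    (RV_le_PA hV hP hS ⟨_, (ha.add hS hb).1⟩) fun a' ha' => ?_
  rw [show a' - a = (a' + b) - (a + b) by abel]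
  exact mon_mem_PA hV hP hS (ha.add hS hb) (Finset.add_mem_add ha' hb.1)

/-- A minimal element exists. -/
theorem exists_minA (hS : ∀ j, S j ≠ 0) {A : Finset (ι → ℤ)} (hA : A.Nonempty)
    (V : ValuationSubring K) : ∃ b, MinA V S A b := by
  obtain ⟨b, hb, h⟩ := Finset.exists_max_image A (fun a => V.valuation (mon S a)) hA
  refine ⟨b, hb, fun a ha => ?_⟩
  rw [mon_sub hS, ← V.valuation_le_one_iff, map_div₀]
  exact div_le_one_of_le₀ (h a ha) zero_le

/-- Elements of the limit ring are at a finite level. -/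
theorem LR_level (hV : Ov k V) (hP : IsModel P) (hS : ∀ j, S j ≠ 0) {w : K}
    (hw : w ∈ LR V P S) : ∃ A₀ : Finset (ι → ℤ), (∀ a ∈ A₀, mon S a ∈ V) ∧
      ∀ A : Finset (ι → ℤ), A₀ ⊆ A → MinA V S A 0 → w ∈ NV V (PA P S A) := by
  classical
  obtain ⟨F, hF, hw⟩ := locV_ncl_fin hw
  have h1 : ∀ z ∈ F, ∃ a : ι → ℤ, mon S a ∈ V ∧ (z ∈ RV V P ∨ z = mon S a) := by
    intro z hz
    rcases hF hz with hz | ⟨hzV, a, rfl⟩
    · exact ⟨0, by rw [mon_zero]; exact V.one_mem, Or.inl hz⟩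
    · exact ⟨a, hzV, Or.inr rfl⟩
  choose! g hg1 hg2 using h1
  refine ⟨F.image g, fun a ha => ?_, fun A hA h0 => ?_⟩
  · obtain ⟨z, hz, rfl⟩ := Finset.mem_image.1 ha
    exact hg1 z hz
  · rw [← locV_ncl_NV' (V := V)]
    refine locV_mono (ncl_mono (Algebra.adjoin_le fun z hz => ?_)) hw
    rcases hg2 z hz with h | h
    · exact RV_le_PA hV hP hS ⟨_, h0.1⟩ h
    · rw [h]
      have := mon_mem_PA hV hP hS h0 (hA (Finset.mem_image_of_mem g hz))
      rwa [sub_zero] at this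

end Pool.Agent.TG
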